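import Pool.Agent.H964.DP.Stm

/-! # Project DP (helper964), task TRANS: canonical environment and stationarity -/

set_option autoImplicit false

open MeasureTheory ProbabilityTheory Filter Finset

namespace Pool.Agent.H935.DP

open Pool.Agent.H964.DP

namespace TRANSL

/-- A probability measure on a product of lines is determined by the laws of the finite linear
combinations of the coordinates. -/
theorem ext_lin {ι : Type} (μ ν : Measure (ι → ℝ)) [IsProbabilityMeasure μ]
    [IsProbabilityMeasure ν]
    (h : ∀ (s : Finset ι) (a : ι → ℝ), μ.map (fun ω => ∑ i ∈ s, a i * ω i) =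
      ν.map (fun ω => ∑ i ∈ s, a i * ω i)) : μ = ν := by
  classical
  have hI : ∀ I : Finset ι, μ.map I.restrict = ν.map I.restrict := by
    intro I
    refine Measure.ext_of_charFunDual ?_
    ext L
    rw [charFunDual_eq_charFun_map_one, charFunDual_eq_charFun_map_one,
      Measure.map_map (by fun_prop) (by fun_prop), Measure.map_map (by fun_prop) (by fun_prop)]
    have hL : (L ∘ I.restrict : (ι → ℝ) → ℝ) = fun ω => ∑ i ∈ I,
        (if hi : i ∈ I then L (fun j => if (⟨i, hi⟩ : I) = j then 1 else 0) else 0) * ω i := by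
      funext ω
      have h1 := LinearMap.pi_apply_eq_sum_univ (L : (I → ℝ) →ₗ[ℝ] ℝ) (I.restrict ω)
      rw [← Finset.sum_coe_sort I]
      refine h1.trans (Finset.sum_congr rfl fun i _ => ?_)
      rw [dif_pos i.2, smul_eq_mul, mul_comm]
      rfl
    rw [hL, h]
  exact IsProjectiveLimit.unique (P := fun I : Finset ι => ν.map I.restrict) hI (fun I => rfl)

/-- The same for families of slices. -/
theorem ext_lin2 (μ ν : Measure (ℕ → V → ℝ)) [IsProbabilityMeasure μ] [IsProbabilityMeasure ν]
    (h : ∀ (T : Finset ℕ) (B : Finset V) (a : ℕ → V → ℝ),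
      μ.map (fun w => ∑ k ∈ T, ∑ y ∈ B, a k y * w k y) =
        ν.map (fun w => ∑ k ∈ T, ∑ y ∈ B, a k y * w k y)) : μ = ν := by
  classical
  have h0 : Measurable (MeasurableEquiv.curry ℕ V ℝ).symm := MeasurableEquiv.measurable _
  have h1 : μ.map (MeasurableEquiv.curry ℕ V ℝ).symm =
      ν.map (MeasurableEquiv.curry ℕ V ℝ).symm := by
    have hp := Measure.isProbabilityMeasure_map (μ := μ) h0.aemeasurable
    have hq := Measure.isProbabilityMeasure_map (μ := ν) h0.aemeasurable
    refine ext_lin _ _ fun s a => ?_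
    rw [Measure.map_map (by fun_prop) h0, Measure.map_map (by fun_prop) h0]
    have h2 : ((fun ω : ℕ × V → ℝ => ∑ i ∈ s, a i * ω i) ∘ (MeasurableEquiv.curry ℕ V ℝ).symm) =
        fun w => ∑ k ∈ s.image Prod.fst, ∑ y ∈ s.image Prod.snd,
          (if (k, y) ∈ s then a (k, y) else 0) * w k y := by
      funext w
      rw [← Finset.sum_product']
      change ∑ i ∈ s, a i * w i.1 i.2 = _
      have h3 : s ⊆ s.image Prod.fst ×ˢ s.image Prod.snd := by
        intro i hi
        rw [Finset.mem_product]
        exact ⟨Finset.mem_image_of_mem _ hi, Finset.mem_image_of_mem _ hi⟩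
      rw [← Finset.sum_subset h3 (f := fun i : ℕ × V =>
        (if (i.1, i.2) ∈ s then a (i.1, i.2) else 0) * w i.1 i.2)]
      · refine Finset.sum_congr rfl fun i hi => ?_
        rw [if_pos (show (i.1, i.2) ∈ s from hi)]
      · intro i _ hi
        rw [if_neg (show ¬ (i.1, i.2) ∈ s from hi), zero_mul]
    rw [h2]
    exact h _ _ (fun k y => if (k, y) ∈ s then a (k, y) else 0)
  exact (MeasurableEquiv.curry ℕ V ℝ).symm.map_measurableEquiv_injective h1

/-- The finite linear combinations under `PP γ`. -/
theorem PP_lin {γ : Measure (V → ℝ)} {h : V → ℝ} (hγ : GS γ h) (T : Finset ℕ) (B : Finset V)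
    (a : ℕ → V → ℝ) : (PP γ).map (fun w => ∑ k ∈ T, ∑ y ∈ B, a k y * w k y) =
      gaussianReal 0 (Real.toNNReal (∑ k ∈ T, ∑ x ∈ B, ∑ y ∈ B, a k x * a k y * h (x - y))) := by
  classical
  have hprob := hγ.prob
  have hpp : IsProbabilityMeasure (PP γ) := by
    unfold PP
    infer_instance
  induction T using Finset.induction_on with
  | empty =>
    simp only [Finset.sum_empty, Real.toNNReal_zero, gaussianReal_zero_var]
    rw [Measure.map_const, measure_univ, one_smul]
  | insert k T hk ih =>
    have hind : iIndepFun (fun (j : ℕ) (w : ℕ → V → ℝ) => ∑ y ∈ B, a j y * w j y) (PP γ) :=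
      iIndepFun_infinitePi (P := fun _ : ℕ => γ)
        (X := fun (j : ℕ) (s : V → ℝ) => ∑ y ∈ B, a j y * s y) (fun j => by fun_prop)
    have h1 := (hind.indepFun_finsetSum_of_notMem (fun j => by fun_prop) hk).symm
    have h2 : (PP γ).map (fun w : ℕ → V → ℝ => ∑ y ∈ B, a k y * w k y) =
        gaussianReal 0 (Real.toNNReal (∑ x ∈ B, ∑ y ∈ B, a k x * a k y * h (x - y))) := by
      rw [← hγ.lin B (a k)]
      have h3 : (PP γ).map (fun w : ℕ → V → ℝ => w k) = γ :=
        Measure.infinitePi_map_eval (fun _ : ℕ => γ) k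
      conv_rhs => rw [← h3]
      rw [Measure.map_map (by fun_prop) (by fun_prop)]
      rfl
    have h4 : (∑ j ∈ T, fun w : ℕ → V → ℝ => ∑ y ∈ B, a j y * w j y) =
        fun w => ∑ j ∈ T, ∑ y ∈ B, a j y * w j y := by
      funext w
      rw [Finset.sum_apply]
    rw [h4] at h1
    have h5 := gaussianReal_add_gaussianReal_of_indepFun h1 h2 ih
    have h6 : (fun w : ℕ → V → ℝ => ∑ j ∈ insert k T, ∑ y ∈ B, a j y * w j y) =
        (fun w => ∑ y ∈ B, a k y * w k y) + fun w => ∑ j ∈ T, ∑ y ∈ B, a j y * w j y := by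
      funext w
      rw [Finset.sum_insert hk]
      rfl
    rw [h6, h5, Finset.sum_insert hk, add_zero, Real.toNNReal_add (hγ.psd B (a k))
      (Finset.sum_nonneg fun j _ => hγ.psd B (a j))]

/-- Stationarity of a slice. -/
theorem stat1 {γ : Measure (V → ℝ)} {h : V → ℝ} (hγ : GS γ h) (z : V) :
    γ.map (fun s x => s (x + z)) = γ := by
  have hprob := hγ.prob
  have hm : Measurable (fun (s : V → ℝ) (x : V) => s (x + z)) := by fun_prop
  have hq := Measure.isProbabilityMeasure_map (μ := γ) hm.aemeasurable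
  refine ext_lin _ _ fun s a => ?_
  rw [Measure.map_map (by fun_prop) hm, hγ.lin s a]
  have h1 : ((fun ω : V → ℝ => ∑ i ∈ s, a i * ω i) ∘ fun (s : V → ℝ) (x : V) => s (x + z)) =
      fun ω => ∑ x ∈ s.map (addRightEmbedding z), a (x - z) * ω x := by
    funext ω
    rw [Finset.sum_map]
    refine Finset.sum_congr rfl fun x _ => ?_
    rw [addRightEmbedding_apply, add_sub_cancel_right]
  rw [h1, hγ.lin (s.map (addRightEmbedding z)) (fun x => a (x - z))]
  congr 2
  rw [Finset.sum_map]
  refine Finset.sum_congr rfl fun x _ => ?_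
  rw [Finset.sum_map]
  refine Finset.sum_congr rfl fun y _ => ?_
  rw [addRightEmbedding_apply, addRightEmbedding_apply, add_sub_cancel_right,
    add_sub_cancel_right]
  change a x * a y * h (x + z - (y + z)) = a x * a y * h (x - y)
  rw [add_sub_add_right_eq_sub]

end TRANSL

open TRANSL in
theorem t_TRANS : Pool.Agent.H964.DP.S_TRANS := by
  classical
  refine ⟨?_, ?_⟩
  · intro h hsymm hpsd h0 Ω _ P _ ω hm hlin
    -- rectangular linear combinations
    have key : ∀ (T : Finset ℕ) (B : Finset V) (a : ℕ → V → ℝ),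
        P.map (fun o => ∑ k ∈ T, ∑ y ∈ B, a k y * ω k y o) =
          gaussianReal 0 (Real.toNNReal
            (∑ k ∈ T, ∑ x ∈ B, ∑ y ∈ B, a k x * a k y * h (x - y))) := by
      intro T B a
      have h1 := hlin (T ×ˢ B) (fun i => a i.1 i.2)
      simp only [Finset.sum_product] at h1
      rw [h1]
      congr 2
      refine Finset.sum_congr rfl fun k hk => Finset.sum_congr rfl fun x _ => ?_
      rw [Finset.sum_eq_single k]
      · refine Finset.sum_congr rfl fun y _ => ?_
        rw [if_pos rfl]
      · intro k' _ hk'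
        refine Finset.sum_eq_zero fun y _ => ?_
        rw [if_neg (Ne.symm hk'), mul_zero]
      · intro hk'
        exact absurd hk hk'
    have hm1 : Measurable (fun (o : Ω) (y : V) => ω 1 y o) :=
      measurable_pi_lambda _ fun y => hm 1 y
    have hm2 : Measurable (fun (o : Ω) (k : ℕ) (y : V) => ω (k + 1) y o) :=
      measurable_pi_lambda _ fun k => measurable_pi_lambda _ fun y => hm (k + 1) y
    have hp1 := Measure.isProbabilityMeasure_map (μ := P) hm1.aemeasurable
    have hp2 := Measure.isProbabilityMeasure_map (μ := P) hm2.aemeasurable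
    have hγ : GS (P.map (fun (o : Ω) (y : V) => ω 1 y o)) h := by
      refine ⟨hp1, hsymm, hpsd, h0, fun s a => ?_⟩
      rw [Measure.map_map (by fun_prop) hm1]
      have h1 := key {1} s (fun _ => a)
      simp only [Finset.sum_singleton] at h1
      exact h1
    refine ⟨_, hγ, ?_⟩
    have hpp : IsProbabilityMeasure (PP (P.map (fun (o : Ω) (y : V) => ω 1 y o))) := by
      unfold PP
      infer_instance
    refine ext_lin2 _ _ fun T B a => ?_
    rw [PP_lin hγ T B a, Measure.map_map (by fun_prop) hm2]
    have h1 := key (T.map (addRightEmbedding 1)) B (fun k => a (k - 1))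
    simp only [Finset.sum_map, addRightEmbedding_apply, Nat.add_sub_cancel] at h1
    exact h1
  · intro γ h hγ z
    have hprob := hγ.prob
    refine ⟨stat1 hγ z, ?_⟩
    have h1 := Measure.infinitePi_map_pi (μ := fun _ : ℕ => γ)
      (f := fun (_ : ℕ) (s : V → ℝ) (x : V) => s (x + z)) (fun _ => by fun_prop)
    unfold PP
    rw [h1]
    simp only [stat1 hγ z]

end Pool.Agent.H935.DP
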